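import Pool.Agent.P.MP_beca7c_lc.FromSat
import Pool.Agent.Lib.helper77.CookLevin

open Pool.Agent.P.MP_beca7c_lc

/-- Response time variability is NP-hard in the strong sense: every language in NP has a
polynomial-time many-one reduction to the decision version with all numbers written in unary. -/
theorem Pool.Agent.Results.MP_beca7c_lc.StronglyNPHard.result :
    ∀ L ∈ N68a2faeb.NP, ∃ f : List Bool → List ℕ × ℕ × ℕ,
      Nonempty (Turing.TM2ComputableInPolyTime id code f) ∧
        ∀ x, Valid (f x) ∧ (L x = true ↔ Yes (f x)) := by
  intro L hL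
  obtain ⟨f, hf, h⟩ := Pool.Agent.Lib.helper77.sat_hard L hL
  exact hard_of_sat f hf h
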